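import Pool.Agent.H.MP_82af14_an.Defs

open Set MeasureTheory RealInnerProductSpace Real Filter Topology

namespace Pool.Agent.H.MP_82af14_an

lemma inner_eq (x y : E) : ⟪x, y⟫ = x 0 * y 0 + x 1 * y 1 + x 2 * y 2 + x 3 * y 3 := by
  simp [PiLp.inner_apply, Fin.sum_univ_four, mul_comm]

noncomputable def W : E →L[ℝ] E := LinearMap.toContinuousLinearMap
  { toFun := fun x => !₂[-x 1, x 0, -2 * x 3, 2 * x 2]
    map_add' := fun x y => by ext i; fin_cases i <;> simp <;> ring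
    map_smul' := fun c x => by ext i; fin_cases i <;> simp <;> ring }

lemma W_apply (x : E) : W x = !₂[-x 1, x 0, -2 * x 3, 2 * x 2] := rfl

noncomputable def R (t : ℝ) (x : E) : E :=
  !₂[cos t * x 0 - sin t * x 1, sin t * x 0 + cos t * x 1,
    cos (2 * t) * x 2 - sin (2 * t) * x 3, sin (2 * t) * x 2 + cos (2 * t) * x 3]

noncomputable def LL (x v : E) : ℝ := ‖v - W x‖ ^ 2 / 2

lemma W_skew (x y : E) : ⟪W x, y⟫ = -⟪x, W y⟫ := by
  simp [inner_eq, W_apply]; ring

lemma W_self (x : E) : ⟪x, W x⟫ = 0 := by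
  simp [inner_eq, W_apply]; ring

lemma R_inner (t : ℝ) (x y : E) : ⟪R t x, R t y⟫ = ⟪x, y⟫ := by
  simp only [inner_eq, R]
  simp
  linear_combination (x 0 * y 0 + x 1 * y 1) * sin_sq_add_cos_sq t +
    (x 2 * y 2 + x 3 * y 3) * sin_sq_add_cos_sq (2 * t)

lemma R_norm (t : ℝ) (x : E) : ‖R t x‖ = ‖x‖ := by
  rw [norm_eq_sqrt_real_inner, R_inner, ← norm_eq_sqrt_real_inner]

lemma W_R (t : ℝ) (x : E) : W (R t x) = R t (W x) := by
  ext i; fin_cases i <;> simp [W_apply, R] <;> ring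

lemma R_neg (t : ℝ) (x : E) : R t (R (-t) x) = x := by
  ext i; fin_cases i <;> simp [R]
  · linear_combination x 0 * sin_sq_add_cos_sq t
  · linear_combination x 1 * sin_sq_add_cos_sq t
  · linear_combination x 2 * sin_sq_add_cos_sq (2 * t)
  · linear_combination x 3 * sin_sq_add_cos_sq (2 * t)

lemma R_zero (x : E) : R 0 x = x := by
  ext i; fin_cases i <;> simp [R]

lemma R_smul (t c : ℝ) (x : E) : R t (c • x) = c • R t x := by
  ext i; fin_cases i <;> simp [R] <;> ring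

lemma R_per (t : ℝ) (n : ℤ) (x : E) : R (t + n * (2 * π)) x = R t x := by
  have h : 2 * (t + n * (2 * π)) = 2 * t + (2 * n : ℤ) * (2 * π) := by push_cast; ring
  simp only [R, h, cos_add_int_mul_two_pi, sin_add_int_mul_two_pi]

lemma R_smooth : ContDiff ℝ 2 fun p : ℝ × E => R p.1 p.2 := by
  rw [contDiff_euclidean]
  intro i
  fin_cases i <;> simp [R] <;> fun_prop

lemma deriv_vec {f : ℝ → E} {f' : E} {t : ℝ} :
    HasDerivAt f f' t ↔ ∀ i, HasDerivAt (fun s => f s i) (f' i) t := by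
  refine ⟨fun h i => (EuclideanSpace.proj (𝕜 := ℝ) i).hasFDerivAt.comp_hasDerivAt t h, fun h => ?_⟩
  exact (PiLp.continuousLinearEquiv 2 ℝ fun _ : Fin 4 => ℝ).symm.hasFDerivAt.comp_hasDerivAt t
    (hasDerivAt_pi.2 h)

lemma R_deriv {g : ℝ → E} {g' : E} {t : ℝ} (h : HasDerivAt g g' t) :
    HasDerivAt (fun s => R s (g s)) (W (R t (g t)) + R t g') t := by
  rw [deriv_vec] at h ⊢
  have c1 := hasDerivAt_cos t
  have s1 := hasDerivAt_sin t
  have c2 := ((hasDerivAt_id t).const_mul 2).cos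
  have s2 := ((hasDerivAt_id t).const_mul 2).sin
  intro i
  fin_cases i
  · exact ((c1.mul (h 0)).sub (s1.mul (h 1))).congr_deriv (by simp [W_apply, R]; ring)
  · exact ((s1.mul (h 0)).add (c1.mul (h 1))).congr_deriv (by simp [W_apply, R]; ring)
  · exact ((c2.mul (h 2)).sub (s2.mul (h 3))).congr_deriv (by simp [W_apply, R]; ring)
  · exact ((s2.mul (h 2)).add (c2.mul (h 3))).congr_deriv (by simp [W_apply, R]; ring)

lemma LL_v (x v : E) : HasFDerivAt (LL x) (innerSL ℝ (v - W x)) v :=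
  ((((hasFDerivAt_id v).sub_const (W x)).norm_sq).const_mul (1 / 2 : ℝ)).congr_fderiv
    (by ext w; simp) |>.congr_of_eventuallyEq (Eventually.of_forall fun w => by simp [LL]; ring)

lemma LL_x (x v : E) : HasFDerivAt (fun z => LL z v) (innerSL ℝ (W (v - W x))) x :=
  (((W.hasFDerivAt.const_sub v).norm_sq).const_mul (1 / 2 : ℝ)).congr_fderiv
    (by ext w; simp [-map_sub, W_skew]) |>.congr_of_eventuallyEq
    (Eventually.of_forall fun w => by simp [LL]; ring)

lemma joins {x u y : E} {s T h : ℝ} (hx : ‖x‖ = 1) (hu : ‖u‖ = 1) (hxu : ⟪x, u⟫ = 0) (hT : 0 < T)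
    (hh : s ^ 2 / 2 + s * ⟪u, W x⟫ = h)
    (hy : cos (s * T) • x + sin (s * T) • u = R (-T) y) : Joins LL h x y := by
  have hx2 : ⟪x, x⟫ = 1 := by rw [real_inner_self_eq_norm_sq, hx]; norm_num
  have hu2 : ⟪u, u⟫ = 1 := by rw [real_inner_self_eq_norm_sq, hu]; norm_num
  have hux : ⟪u, x⟫ = 0 := by rwa [real_inner_comm]
  let g : ℝ → E := fun t => cos (s * t) • x + sin (s * t) • u
  let g' : ℝ → E := fun t => (-sin (s * t) * s) • x + (cos (s * t) * s) • u
  have hc : ∀ t, HasDerivAt (fun t => cos (s * t)) (-sin (s * t) * s) t := fun t => by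
    simpa using ((hasDerivAt_id t).const_mul s).cos
  have hs : ∀ t, HasDerivAt (fun t => sin (s * t)) (cos (s * t) * s) t := fun t => by
    simpa using ((hasDerivAt_id t).const_mul s).sin
  have h1 : ∀ t, HasDerivAt g (g' t) t := fun t =>
    ((hc t).smul_const x).add ((hs t).smul_const u)
  have h2 : ∀ t, HasDerivAt g' ((-s ^ 2) • g t) t := fun t =>
    ((((hs t).neg.mul_const s).smul_const x).add (((hc t).mul_const s).smul_const u)).congr_deriv
      (by simp only [g]; module)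
  have h3 : ∀ t, deriv (fun t => R t (g t)) t = W (R t (g t)) + R t (g' t) := fun t =>
    (R_deriv (h1 t)).deriv
  refine ⟨T, fun t => R t (g t), hT, R_smooth.comp (f := fun t => (t, g t)) (by fun_prop),
    fun t => ?_, by simp [g, R_zero], by simp only [g, hy, R_neg], fun t w hw => ?_, fun t => ?_⟩
  · rw [R_norm, norm_eq_sqrt_real_inner, sqrt_eq_one]
    simp only [g, inner_add_left, inner_add_right, real_inner_smul_left, real_inner_smul_right, hx2,
      hu2, hxu, hux]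
    linear_combination sin_sq_add_cos_sq (s * t)
  · simp only [(LL_v _ _).fderiv, (LL_x _ _).fderiv, h3, add_sub_cancel_left, innerSL_apply_apply]
    refine ((R_deriv (h2 t)).inner ℝ (hasDerivAt_const t w)).congr_deriv ?_
    simp [R_smul, inner_add_left, inner_smul_left, hw, -neg_smul]
  · simp only [(LL_v _ _).fderiv, h3, add_sub_cancel_left, innerSL_apply_apply, LL,
      inner_add_right, W_R, R_inner, ← real_inner_self_eq_norm_sq]
    have h4 : ⟪x, W u⟫ = -⟪u, W x⟫ := by rw [real_inner_comm, W_skew]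
    simp only [g, g', map_add, map_smul, inner_add_left, inner_add_right, real_inner_smul_left,
      real_inner_smul_right, hx2, hu2, hxu, hux, W_self, h4]
    linear_combination hh + (s ^ 2 / 2 + s * ⟪u, W x⟫) * sin_sq_add_cos_sq (s * t)

lemma crit : Crit LL = Ici 0 := by
  ext k
  refine ⟨fun h => ?_, fun h T γ hT _ _ _ _ => intervalIntegral.integral_nonneg hT.le fun t _ =>
    add_nonneg (by unfold LL; positivity) h⟩
  let x : E := !₂[1, 0, 0, 0]
  have h1 : ∀ t, deriv (fun s => R s x) t = W (R t x) := fun t => by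
    rw [(R_deriv (hasDerivAt_const t x)).deriv, ← zero_smul ℝ x, R_smul]
    simp
  have h2 : ContDiff ℝ 2 fun s => R s x := R_smooth.comp (f := fun t => (t, x)) (by fun_prop)
  have h3 := h (2 * π) (fun s => R s x) (by positivity)
    (h2.of_le (by norm_num)).contDiffOn.absolutelyContinuousOnInterval
    (fun t _ => by rw [R_norm, norm_eq_sqrt_real_inner, inner_eq]; simp [x])
    (by simpa using (R_per 0 1 x).symm) (by simp [h1, LL])
  simp [h1, LL] at h3
  exact nonneg_of_mul_nonneg_right h3 (by positivity)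

noncomputable def x0 : E := !₂[4 / 5, 0, 3 / 5, 0]

lemma x0_norm : ‖x0‖ = 1 := by
  rw [norm_eq_sqrt_real_inner, sqrt_eq_one, inner_eq]
  simp [x0]
  norm_num

lemma big {y : E} (hy : ‖y‖ = 1) : ∃ t ∈ Icc 0 (2 * π), 1 / 4 < ⟪R (-t) y, W x0⟫ := by
  by_contra h
  push Not at h
  have hp := pi_pos
  have h0 : ∀ t ∈ Icc 0 (2 * π), 4 / 5 * (-sin t * y 0 + cos t * y 1) +
      6 / 5 * (-sin (2 * t) * y 2 + cos (2 * t) * y 3) ≤ 1 / 4 := fun t ht => by
    refine le_trans (le_of_eq ?_) (h t ht)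
    simp [inner_eq, R, W_apply, x0]
    ring
  have h1 : ∀ t ∈ Icc 0 π, 4 / 5 * (sin t * y 0 - cos t * y 1) +
      6 / 5 * (-sin (2 * t) * y 2 + cos (2 * t) * y 3) ≤ 1 / 4 := fun t ht => by
    have := h0 (t + π) ⟨by linarith [ht.1], by linarith [ht.2]⟩
    rw [mul_add 2 t, sin_add_pi, cos_add_pi, sin_add_two_pi, cos_add_two_pi] at this
    linarith
  have a1 := h0 0 ⟨by linarith, by linarith⟩
  have a2 := h1 0 ⟨by linarith, by linarith⟩
  have a3 := h0 (π / 2) ⟨by linarith, by linarith⟩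
  have a4 := h1 (π / 2) ⟨by linarith, by linarith⟩
  have a5 := h0 (π / 4) ⟨by linarith, by linarith⟩
  have a6 := h1 (π / 4) ⟨by linarith, by linarith⟩
  have a7 := h0 (3 * π / 4) ⟨by linarith, by linarith⟩
  have a8 := h1 (3 * π / 4) ⟨by linarith, by linarith⟩
  rw [show 2 * (π / 2) = π by ring] at a3 a4
  rw [show 2 * (π / 4) = π / 2 by ring] at a5 a6
  rw [show 2 * (3 * π / 4) = π / 2 + π by ring, sin_add_pi, cos_add_pi] at a7 a8
  simp only [mul_zero, sin_zero, cos_zero, sin_pi, cos_pi, sin_pi_div_two, cos_pi_div_two] at *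
  rw [norm_eq_sqrt_real_inner, sqrt_eq_one, inner_eq] at hy
  have b0 : y 0 * y 0 ≤ 5 / 8 * (5 / 8) :=
    abs_le_iff_mul_self_le.1 (abs_le_abs (by linarith) (by linarith))
  have b1 : y 1 * y 1 ≤ 5 / 8 * (5 / 8) :=
    abs_le_iff_mul_self_le.1 (abs_le_abs (by linarith) (by linarith))
  have b2 : y 2 * y 2 ≤ 5 / 24 * (5 / 24) :=
    abs_le_iff_mul_self_le.1 (abs_le_abs (by linarith) (by linarith))
  have b3 : y 3 * y 3 ≤ 5 / 24 * (5 / 24) :=
    abs_le_iff_mul_self_le.1 (abs_le_abs (by linarith) (by linarith))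
  linarith

lemma caseB {y : E} {τ : ℝ} {k : ℕ} (hk : k = 2 ∨ k = 3) (h : R (-τ) y = (-1 : ℝ) ^ k • x0) :
    Joins LL (-1 / 32) x0 y := by
  have hp := pi_pos
  obtain ⟨n, h1, -⟩ := existsUnique_add_zsmul_mem_Ico (a := 2 * π) (by positivity) τ (4 * π)
  rw [zsmul_eq_mul] at h1
  obtain ⟨T, hT⟩ : ∃ T, T = τ + n * (2 * π) := ⟨_, rfl⟩
  rw [← hT] at h1
  have h2 : 0 < T := by linarith [h1.1]
  obtain ⟨s, hs⟩ : ∃ s, s = k * π / T := ⟨_, rfl⟩
  have h3 : s * T = k * π := by rw [hs]; field_simp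
  have h4 : 1 / 4 ≤ s ∧ s ≤ 1 := by
    rw [hs, le_div_iff₀ h2, div_le_iff₀ h2]
    rcases hk with rfl | rfl <;> push_cast <;> constructor <;> linarith [h1.1, h1.2]
  obtain ⟨μ, hμ⟩ : ∃ μ, μ = 5 / 6 * (-1 / 32 / s - s / 2) := ⟨_, rfl⟩
  have h5 : s * μ = 5 / 6 * (-1 / 32 - s ^ 2 / 2) := by
    rw [hμ]
    have : s ≠ 0 := by linarith [h4.1]
    field_simp
  have h6 : 0 ≤ 1 - μ ^ 2 := by
    have : μ ≤ 0 := by nlinarith [h4.1]
    have : -1 ≤ μ := by nlinarith [h4.1, h4.2]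
    nlinarith
  refine joins (u := !₂[3 / 5 * √(1 - μ ^ 2), 0, -4 / 5 * √(1 - μ ^ 2), μ]) (s := s) x0_norm ?_ ?_
    h2 ?_ ?_
  · rw [norm_eq_sqrt_real_inner, sqrt_eq_one, inner_eq]
    simp
    linear_combination sq_sqrt h6
  · simp [inner_eq, x0]
    ring
  · simp [inner_eq, x0, W_apply]
    linear_combination 6 / 5 * h5
  · rw [h3, sin_nat_mul_pi, cos_nat_mul_pi, zero_smul, add_zero, ← h, ← R_per (-T) n, hT]
    simp

lemma caseA {y : E} (hy : ‖y‖ = 1) (h : ∀ t, ⟪R (-t) y, x0⟫ ^ 2 < 1) :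
    Joins LL (-1 / 32) x0 y := by
  have hp := pi_pos
  have hY : Continuous fun t => R (-t) y :=
    R_smooth.continuous.comp (f := fun t => (-t, y)) (by fun_prop)
  obtain ⟨C, hC⟩ : ∃ C : ℝ → ℝ, C = fun t => ⟪R (-t) y, x0⟫ := ⟨_, rfl⟩
  obtain ⟨D, hD⟩ : ∃ D : ℝ → ℝ, D = fun t => √(1 - C t ^ 2) := ⟨_, rfl⟩
  obtain ⟨q, hq⟩ : ∃ q : ℝ → ℝ, q = fun t => ⟪R (-t) y, W x0⟫ / D t := ⟨_, rfl⟩
  obtain ⟨s, hs⟩ : ∃ s : ℝ → ℝ,
    s = fun t => max (q t) (1 / 4) + √(max (q t) (1 / 4) ^ 2 - 1 / 16) := ⟨_, rfl⟩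
  have h1 : ∀ t, 0 < 1 - C t ^ 2 := fun t => by rw [hC]; exact sub_pos.2 (h t)
  have h2 : ∀ t, 0 < D t := fun t => by rw [hD]; exact sqrt_pos.2 (h1 t)
  have h3 : ∀ t, D t ≤ 1 := fun t => by
    rw [hD]; exact Real.sqrt_le_one.2 (by linarith [sq_nonneg (C t)])
  have cC : Continuous C := by rw [hC]; fun_prop
  have cD : Continuous D := by rw [hD]; fun_prop
  have cq : Continuous q := by
    rw [hq]; exact Continuous.div (by fun_prop) cD fun t => (h2 t).ne'
  have cs : Continuous s := by rw [hs]; fun_prop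
  obtain ⟨a, ha, h4⟩ := big hy
  obtain ⟨b, hb, h5⟩ := big (y := (-1 : ℝ) • y) (by simpa using hy)
  rw [R_smul, real_inner_smul_left] at h5
  have h6 : q b ≤ 1 / 4 := by
    rw [hq]
    exact (div_nonpos_of_nonpos_of_nonneg (by linarith) (h2 b).le).trans (by norm_num)
  have h7 : 1 / 4 < s a := by
    have : 1 / 4 < q a := by
      rw [hq]
      exact (lt_div_iff₀ (h2 a)).2 (by linarith [h3 a])
    rw [hs]
    linarith [le_max_left (q a) (1 / 4), sqrt_nonneg (max (q a) (1 / 4) ^ 2 - 1 / 16)]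
  obtain ⟨N, hN⟩ := exists_nat_ge (2 / (s a - 1 / 4))
  rw [div_le_iff₀ (by linarith)] at hN
  have hN0 : (0 : ℝ) < N := by
    by_contra h0
    nlinarith
  let F : ℝ → ℝ := fun t => s t * (t + N * (2 * π)) + arccos (C t)
  have cF : Continuous F := by fun_prop
  have h8 := Int.floor_le (s a * N)
  have h9 := Int.lt_floor_add_one (s a * N)
  generalize ⌊s a * N⌋ = k at h8 h9
  have key : ∀ t ∈ Icc 0 (2 * π), q t ≤ 1 / 4 → F t < k * (2 * π) := fun t ht h0 => by
    have : s t = 1 / 4 := by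
      rw [hs]
      simp only [max_eq_right h0]
      norm_num
    simp only [F, this]
    nlinarith [arccos_le_pi (C t), ht.2]
  have h10 : k * (2 * π) ≤ F a := by
    simp only [F]
    nlinarith [arccos_nonneg (C a), ha.1, mul_nonneg ha.1 (by linarith : 0 ≤ s a)]
  obtain ⟨t, ht, h11⟩ := intermediate_value_uIcc (a := b) (b := a) cF.continuousOn
    (mem_uIcc_of_le (key b hb h6).le h10)
  have ht' : t ∈ Icc 0 (2 * π) := ordConnected_Icc.uIcc_subset hb ha ht
  have h12 : 1 / 4 < q t := by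
    by_contra h0
    linarith [key t ht' (not_lt.1 h0)]
  have h13 : s t * (t + N * (2 * π)) = -arccos (C t) + k * (2 * π) := by
    simp only [F] at h11
    linarith
  have hx : ⟪x0, x0⟫ = 1 := by rw [real_inner_self_eq_norm_sq, x0_norm]; norm_num
  have hyy : ⟪R (-t) y, R (-t) y⟫ = 1 := by rw [real_inner_self_eq_norm_sq, R_norm, hy]; norm_num
  have hC1 : ⟪R (-t) y, x0⟫ = C t := by rw [hC]
  have hC2 : ⟪x0, R (-t) y⟫ = C t := by rw [real_inner_comm, hC1]
  have hD2 : D t ^ 2 = 1 - C t ^ 2 := by rw [hD]; exact sq_sqrt (h1 t).le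
  have hD0 := (h2 t).ne'
  refine joins (u := (-(D t)⁻¹) • (R (-t) y - C t • x0)) (s := s t) (T := t + N * (2 * π)) x0_norm
    ?_ ?_ (by nlinarith [ht'.1]) ?_ ?_
  · rw [norm_eq_sqrt_real_inner, sqrt_eq_one]
    simp only [inner_sub_left, inner_sub_right, real_inner_smul_left, real_inner_smul_right, hx,
      hyy, hC1, hC2]
    field_simp
    linarith
  · simp only [inner_sub_right, real_inner_smul_right, hx, hC2]
    ring
  · have h14 : ⟪R (-t) y, W x0⟫ = q t * D t := by rw [hq]; field_simp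
    have h15 : (s t - q t) ^ 2 = q t ^ 2 - 1 / 16 := by
      rw [hs]
      simp only [max_eq_left h12.le, add_sub_cancel_left]
      exact sq_sqrt (by nlinarith)
    simp only [inner_sub_left, real_inner_smul_left, W_self, h14, mul_zero, sub_zero]
    field_simp
    linarith
  · have h16 : -1 ≤ C t ∧ C t ≤ 1 := abs_le.1 ((sq_le_one_iff_abs_le_one _).1 (by linarith [h1 t]))
    rw [h13, cos_add_int_mul_two_pi, sin_add_int_mul_two_pi, cos_neg, sin_neg, sin_arccos,
      cos_arccos h16.1 h16.2, show √(1 - C t ^ 2) = D t by rw [hD], smul_smul, neg_mul_neg,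
      mul_inv_cancel₀ hD0, one_smul, add_sub_cancel, ← R_per (-(t + _)) N]
    simp

lemma reach {y : E} (hy : ‖y‖ = 1) : Joins LL (-1 / 32) x0 y := by
  by_cases h : ∀ t, ⟪R (-t) y, x0⟫ ^ 2 < 1
  · exact caseA hy h
  push Not at h
  obtain ⟨t, h⟩ := h
  have h1 : ‖R (-t) y‖ = 1 := by rw [R_norm, hy]
  have h2 := abs_real_inner_le_norm (R (-t) y) x0
  rw [h1, x0_norm, mul_one] at h2
  rcases (abs_eq zero_le_one).1 (le_antisymm h2 ((one_le_sq_iff_one_le_abs _).1 h)) with h3 | h3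
  · exact caseB (τ := t) (.inl rfl) (by simpa using (inner_eq_one_iff_of_norm_eq_one h1 x0_norm).1 h3)
  · refine caseB (τ := t) (.inr rfl) ((inner_eq_one_iff_of_norm_eq_one (𝕜 := ℝ) h1 ?_).1 ?_)
    · simp [norm_smul, x0_norm]
    · rw [real_inner_smul_right, h3]
      norm_num

end Pool.Agent.H.MP_82af14_an
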