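import Pool.Agent.H.MP_82af14_an.A

open Set Metric

namespace Pool.Agent.H.MP_82af14_an

lemma lin {x : E} (a b : Path x x) (h : ∀ s ∈ Icc (0 : ℝ) 1, ∀ t, (1 - s) • a t + s • b t ≠ 0) :
    ∃ F : a.Homotopy b, ∀ t, F t ≠ 0 :=
  ⟨{ toFun := fun z => (1 - (z.1 : ℝ)) • a z.2 + (z.1 : ℝ) • b z.2
     continuous_toFun := by fun_prop
     map_zero_left := by simp
     map_one_left := by simp
     prop' := by
      rintro s t (rfl | rfl) <;> simp [← add_smul] }, fun z => h _ z.1.2 _⟩

lemma sc : IsSimplyConnected (sphere (0 : E) 1) := by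
  refine isSimplyConnected_iff_exists_homotopy_refl_forall_mem.2 ⟨isPathConnected_sphere (by
    rw [← Module.finrank_eq_rank]; simp) _ zero_le_one, fun x p hp => ?_⟩
  simp only [mem_sphere_zero_iff_norm] at hp ⊢
  have hx : ‖x‖ = 1 := by simpa using hp 0
  obtain ⟨q, h1, h2, -⟩ := p.continuous_extend.exists_contDiff_approx 1 (ε := fun _ => 1 / 4)
    continuous_const fun _ => by norm_num
  let r : ℝ → E := fun t => q t + (1 - t) • (x - q 0) + t • (x - q 1)
  have h3 : ContDiff ℝ 1 fun z : ℝ × ℝ × ℝ => z.1 • (r z.2.1 + z.2.2 • x) := by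
    have : ContDiff ℝ 1 q := h1
    fun_prop
  obtain ⟨z, h4, h5⟩ := (h3.dense_compl_range_of_finrank_lt_finrank (by simp)).exists_mem_open
    (isOpen_ball (x := 0) (ε := 1 / 4)) ⟨0, by simp⟩
  let b : Path x x :=
    { toFun := fun t => r t + ((t : ℝ) * (1 - t)) • z
      continuous_toFun := by have := h1.continuous; fun_prop
      source' := by simp [r]
      target' := by simp [r] }
  have hb : ∀ t, ‖b t - p t‖ < 1 := fun t => by
    have a1 := h2 t
    have a2 := h2 0
    have a3 := h2 1
    simp only [Path.extend_extends', Path.extend_zero, Path.extend_one, dist_eq_norm] at a1 a2 a3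
    rw [norm_sub_rev] at a2 a3
    rw [mem_ball_zero_iff] at h5
    have e : b t - p t = (q t - p t) + (1 - (t : ℝ)) • (x - q 0) + (t : ℝ) • (x - q 1) +
        ((t : ℝ) * (1 - t)) • z := by
      show r t + ((t : ℝ) * (1 - t)) • z - p t = _
      simp only [r]
      abel
    have t0 := t.2.1
    have t1 := sub_nonneg.2 t.2.2
    rw [e]
    refine (norm_add₄_le.trans_lt ?_)
    rw [norm_smul, norm_smul, norm_smul, Real.norm_of_nonneg t0, Real.norm_of_nonneg t1,
      Real.norm_of_nonneg (mul_nonneg t0 t1)]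
    have a4 : (t : ℝ) * (1 - t) * ‖z‖ ≤ 1 * ‖z‖ :=
      mul_le_mul_of_nonneg_right (by nlinarith) (norm_nonneg _)
    nlinarith [mul_le_mul_of_nonneg_left a2.le t1, mul_le_mul_of_nonneg_left a3.le t0]
  obtain ⟨F, hF⟩ := lin p b fun s hs t h => by
    have e : p t = (-s) • (b t - p t) := by linear_combination (norm := module) h
    have := hp t
    rw [e, norm_smul, norm_neg, Real.norm_of_nonneg hs.1] at this
    nlinarith [hb t, hs.1, hs.2, norm_nonneg (b t - p t)]
  obtain ⟨G, hG⟩ := lin b (.refl x) fun s hs t h => by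
    have hx0 : x ≠ 0 := by rintro rfl; simp at hx
    by_cases h6 : (1 - s) * ((t : ℝ) * (1 - t)) = 0
    · have : s = 1 ∨ t = 0 ∨ t = 1 := by
        simp only [mul_eq_zero, sub_eq_zero] at h6
        rcases h6 with h6 | h6 | h6
        exacts [.inl h6.symm, .inr (.inl (Subtype.ext h6)), .inr (.inr (Subtype.ext h6.symm))]
      rcases this with rfl | rfl | rfl <;> simp [← add_smul, hx0] at h
    · have h7 := left_ne_zero_of_mul h6
      have h8 := right_ne_zero_of_mul h6
      refine h4 ⟨(-((t : ℝ) * (1 - t))⁻¹, t, s / (1 - s)), smul_right_injective E h6 ?_⟩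
      have h : (1 - s) • (r t + ((t : ℝ) * (1 - t)) • z) + s • x = 0 := h
      generalize (t : ℝ) * (1 - t) = c at *
      simp only [smul_smul, smul_add] at h ⊢
      rw [show (1 - s) * c * -c⁻¹ = -(1 - s) by field_simp,
        show (1 - s) * c * (-c⁻¹ * (s / (1 - s))) = -s by field_simp]
      linear_combination (norm := module) -h
  have hH : ∀ t, F.trans G t ≠ 0 := fun t => by
    rw [Path.Homotopy.trans_apply]
    split_ifs
    exacts [hF _, hG _]
  generalize F.trans G = H at hH
  refine ⟨{ toFun := fun z => ‖H z‖⁻¹ • H z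
            continuous_toFun := (H.continuous.norm.inv₀ fun z => norm_ne_zero_iff.2 (hH z)).smul
              H.continuous
            map_zero_left := by simp [hp]
            map_one_left := by simp [hx]
            prop' := by rintro s t (rfl | rfl) <;> simp [hx] }, fun z => ?_⟩
  exact norm_smul_inv_norm (𝕜 := ℝ) (hH z)

end Pool.Agent.H.MP_82af14_an
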