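import Mathlib

open Set MeasureTheory RealInnerProductSpace

namespace Pool.Agent.H.MP_82af14_an

abbrev E := EuclideanSpace ℝ (Fin 4)

/-- `k` such that `L + k` has nonnegative action on all closed a.c. curves in the unit sphere. -/
def Crit (L : E → E → ℝ) : Set ℝ :=
  {k | ∀ (T : ℝ) (γ : ℝ → E), 0 < T → AbsolutelyContinuousOnInterval γ 0 T →
    (∀ t ∈ Icc 0 T, ‖γ t‖ = 1) → γ 0 = γ T →
    IntervalIntegrable (fun t => L (γ t) (deriv γ t) + k) volume 0 T →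
    0 ≤ ∫ t in (0 : ℝ)..T, (L (γ t) (deriv γ t) + k)}

/-- An Euler-Lagrange solution on the unit sphere of energy `h` goes from `x` to `y`. -/
def Joins (L : E → E → ℝ) (h : ℝ) (x y : E) : Prop :=
  ∃ (T : ℝ) (γ : ℝ → E), 0 < T ∧ ContDiff ℝ 2 γ ∧ (∀ t, ‖γ t‖ = 1) ∧ γ 0 = x ∧ γ T = y ∧
    (∀ t w, ⟪γ t, w⟫ = 0 → HasDerivAt (fun s => fderiv ℝ (L (γ s)) (deriv γ s) w)
      (fderiv ℝ (fun z => L z (deriv γ t)) (γ t) w) t) ∧
    ∀ t, fderiv ℝ (L (γ t)) (deriv γ t) (deriv γ t) - L (γ t) (deriv γ t) = h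

end Pool.Agent.H.MP_82af14_an
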